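import Mathlib
import Pool.Agent.Helper973_OutC.Base
import Pool.Agent.Helper973_TwoGen.Deep
import Pool.Agent.Helper973_TwoGen.Main

/-!
Groups with a cyclic lower central factor.
-/

set_option autoImplicit false

namespace Pool.Agent.Helper973_Cyc

open Subgroup Pool.Agent.Helper973_OutC Pool.Agent.Helper973_TwoGen
open scoped commutatorElement

/-- a finite cyclic group embeds in the unit group of `ℂ` -/
theorem exists_faithful (H : Type*) [Group H] [Finite H] [IsCyclic H] :
    ∃ f : H →* ℂˣ, Function.Injective f := by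
  obtain ⟨g, hg⟩ := IsCyclic.exists_generator (α := H)
  have hn : orderOf g ≠ 0 := (orderOf_pos g).ne'
  have : NeZero (orderOf g) := ⟨hn⟩
  obtain ⟨ζ, hζ⟩ := HasEnoughRootsOfUnity.exists_primitiveRoot ℂ (orderOf g)
  set u : ℂˣ := (hζ.isUnit hn).unit with hu
  have hu' : IsPrimitiveRoot u (orderOf g) := by
    rw [← IsPrimitiveRoot.coe_units_iff, hu]
    simpa using hζ
  have ho : orderOf u = orderOf g := hu'.eq_orderOf.symm
  refine ⟨monoidHomOfForallMemZpowers hg (g' := u) ho.dvd, ?_⟩
  rw [injective_iff_map_eq_one]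
  intro x hx
  obtain ⟨k, rfl⟩ := mem_zpowers_iff.mp (hg x)
  rw [map_zpow, monoidHomOfForallMemZpowers_apply_gen] at hx
  rw [← orderOf_dvd_iff_zpow_eq_one, ← ho, orderOf_dvd_iff_zpow_eq_one]
  exact hx

/-- duality: if every common zero of a family of characters (the range of `Φ`) is a zero of `χ`,
then `χ` belongs to the family -/
theorem mem_of_vanish {A Γ : Type*} [CommGroup A] [Finite A] [Group Γ]
    (Φ : Γ →* (A →* ℂˣ)) (χ : A →* ℂˣ)
    (h : ∀ a : A, (∀ z : Γ, Φ z a = 1) → χ a = 1) : ∃ z, Φ z = χ := by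
  have hfin : Finite (A →* ℂˣ) := inferInstance
  have hexp : NeZero (Monoid.exponent (A →* ℂˣ)) :=
    ⟨(Monoid.exponent_pos_of_exists (Nat.card (A →* ℂˣ)) Nat.card_pos
      (fun g => pow_card_eq_one')).ne'⟩
  have key : χ ∈ Φ.range := by
    rw [← CommGroup.forall_monoidHom_apply_eq_one_iff (M := ℂ)]
    intro ψ hψ
    set a := CommGroup.monoidHomMonoidHomEquiv A ℂ ψ with ha
    have h1 : ∀ φ : A →* ℂˣ, φ a = ψ φ := fun φ => by
      rw [ha]; exact CommGroup.apply_monoidHomMonoidHomEquiv (G := A) (M := ℂ) φ ψ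
    rw [← h1 χ]
    apply h
    intro z
    rw [h1]
    exact hψ _ ⟨z, rfl⟩
  obtain ⟨z, hz⟩ := key
  exact ⟨z, hz⟩

/-- if the last term of the lower central series is cyclic, then the lower central series of
`AutC G` reaches the inner automorphisms one step earlier -/
theorem cyclic_last (G : Type*) [Group G] [Finite G] {a : ℕ} (hbot : gam G (a + 2) = ⊥)
    (hcyc : IsCyclic (gam G (a + 1))) :
    (⊤ : Subgroup (AutC G)).lowerCentralSeries a ≤ InnC G := by
  -- `γ_c` is central
  have hcent : ∀ h ∈ gam G (a + 1), ∀ x : G, x * h = h * x := by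
    intro h hh x
    have h1 := comm_mem_right hh x
    rw [show a + 1 + 1 = a + 2 from rfl, hbot, Subgroup.mem_bot, commutatorElement_eq_one_iff_mul_comm] at h1
    exact h1
  obtain ⟨ι, hι⟩ := exists_faithful (gam G (a + 1))
  intro t ht
  have hsim : ∀ x : G, ∃ z ∈ gam G a, (t : MulAut G) x = z * x * z⁻¹ :=
    fun x => (lcs_le_SimAt x a ht).2
  have htmem : ∀ x : G, (t : MulAut G) x * x⁻¹ ∈ gam G (a + 1) := by
    intro x
    obtain ⟨z, hz, hz'⟩ := hsim x
    rw [hz']
    have := comm_mem_left hz x
    rwa [commutatorElement_def] at this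
  -- the character attached to `t`
  let f : G →* ℂˣ :=
    { toFun := fun x => ι ⟨(t : MulAut G) x * x⁻¹, htmem x⟩
      map_one' := by
        rw [← map_one ι]; congr 1; ext; simp
      map_mul' := by
        intro x y
        rw [← map_mul ι]
        congr 1
        ext
        simp only [map_mul, mul_inv_rev, Subgroup.coe_mul]
        have := hcent _ (htmem y) x⁻¹
        calc (t : MulAut G) x * (t : MulAut G) y * (y⁻¹ * x⁻¹)
            = (t : MulAut G) x * (((t : MulAut G) y * y⁻¹) * x⁻¹) := by group
          _ = (t : MulAut G) x * (x⁻¹ * ((t : MulAut G) y * y⁻¹)) := by rw [this]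
          _ = _ := by group }
  -- the characters attached to elements of `γ_{c-1}`
  have hcm : ∀ (z : gam G a) (x : G), ⁅(z : G), x⁆ ∈ gam G (a + 1) := fun z x => comm_mem_left z.2 x
  let φ : gam G a → (G →* ℂˣ) := fun z =>
    { toFun := fun x => ι ⟨⁅(z : G), x⁆, hcm z x⟩
      map_one' := by
        rw [← map_one ι]; congr 1; ext; simp
      map_mul' := by
        intro x y
        rw [← map_mul ι]
        congr 1
        ext
        simp only [Subgroup.coe_mul]
        have h3 := hcent _ (hcm z y) x
        rw [commutatorElement_def, commutatorElement_def, commutatorElement_def]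
        rw [commutatorElement_def] at h3
        calc (z : G) * (x * y) * (z : G)⁻¹ * (x * y)⁻¹
            = ((z : G) * x * (z : G)⁻¹) * ((z : G) * y * (z : G)⁻¹ * y⁻¹) * x⁻¹ := by group
          _ = ((z : G) * x * (z : G)⁻¹ * x⁻¹) * (x * ((z : G) * y * (z : G)⁻¹ * y⁻¹)) * x⁻¹ := by
              group
          _ = ((z : G) * x * (z : G)⁻¹ * x⁻¹) * (((z : G) * y * (z : G)⁻¹ * y⁻¹) * x) * x⁻¹ := by
              rw [h3]
          _ = _ := by group }
  have hφmul : ∀ z w : gam G a, φ (z * w) = φ z * φ w := by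
    intro z w
    ext x
    simp only [φ, MonoidHom.coe_mk, OneHom.coe_mk, MonoidHom.mul_apply]
    rw [← map_mul ι]
    congr 2
    ext
    simp only [Subgroup.coe_mul]
    have h3 := hcent _ (hcm w x) (z : G)
    rw [commutatorElement_def] at h3
    rw [commutatorElement_def, commutatorElement_def, commutatorElement_def]
    have h4 := hcent _ (hcm z x) ((w : G) * x * (w : G)⁻¹ * x⁻¹)
    rw [commutatorElement_def] at h4
    calc (z : G) * (w : G) * x * ((z : G) * (w : G))⁻¹ * x⁻¹
        = ((z : G) * ((w : G) * x * (w : G)⁻¹ * x⁻¹)) * x * (z : G)⁻¹ * x⁻¹ := by group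
      _ = (((w : G) * x * (w : G)⁻¹ * x⁻¹) * (z : G)) * x * (z : G)⁻¹ * x⁻¹ := by rw [h3]
      _ = ((w : G) * x * (w : G)⁻¹ * x⁻¹) * ((z : G) * x * (z : G)⁻¹ * x⁻¹) := by group
      _ = _ := h4
  -- pass to the abelianization
  let Φ : gam G a →* (Abelianization G →* ℂˣ) :=
    { toFun := fun z => Abelianization.lift (φ z)
      map_one' := by
        have h1 : φ 1 = 1 := by
          ext x
          simp only [φ, MonoidHom.coe_mk, OneHom.coe_mk, MonoidHom.one_apply]
          rw [← map_one ι]
          congr 2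
          apply Subtype.ext
          simp
        rw [h1]
        ext x
        simp
      map_mul' := by
        intro z w
        rw [hφmul]
        ext x
        simp }
  obtain ⟨z, hz⟩ := mem_of_vanish Φ (Abelianization.lift f) (by
    intro b hb
    obtain ⟨x, rfl⟩ := QuotientGroup.mk_surjective b
    obtain ⟨z, hz, hz'⟩ := hsim x
    have h1 := hb ⟨z, hz⟩
    change φ ⟨z, hz⟩ x = 1 at h1
    change f x = 1
    rw [← h1]
    simp only [φ, f, MonoidHom.coe_mk, OneHom.coe_mk]
    congr 1
    apply Subtype.ext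
    simp only [hz', commutatorElement_def])
  have hfin : ∀ x : G, (t : MulAut G) x = (z : G) * x * (z : G)⁻¹ := by
    intro x
    have h1 := DFunLike.congr_fun hz (Abelianization.of x)
    change φ z x = f x at h1
    simp only [φ, f, MonoidHom.coe_mk, OneHom.coe_mk] at h1
    have h2 := congrArg Subtype.val (hι h1)
    simp only [commutatorElement_def] at h2
    have h3 := congrArg (fun s => s * x) h2
    simpa using h3.symm
  -- hence `t` is inner
  refine ⟨(z : G), ?_⟩
  ext x
  exact (hfin x).symm


end Pool.Agent.Helper973_Cyc
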