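import Mathlib
import Pool.Agent.Helper973_OutC.Base
import Pool.Agent.Helper973_TwoGen.Deep
import Pool.Agent.Helper973_TwoGen.Main
import Pool.Agent.Helper973_Cyc.Core

/-!
Passage to a quotient by a term of the lower central series.
-/

set_option autoImplicit false

namespace Pool.Agent.Helper973_Cyc

open Subgroup Pool.Agent.Helper973_OutC Pool.Agent.Helper973_TwoGen
open scoped commutatorElement

variable {G : Type*} [Group G]

theorem gam_map_aut (k : ℕ) (α : MulAut G) :
    (gam G k).map (α : G ≃* G).toMonoidHom = gam G k := by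
  rw [gam, Subgroup.map_lowerCentralSeries]
  congr 1
  exact Subgroup.map_top_of_surjective _ α.surjective

/-- the automorphism induced on `G / γ_{k+1}` -/
def qAut (k : ℕ) (α : MulAut G) : MulAut (G ⧸ gam G k) :=
  QuotientGroup.congr (gam G k) (gam G k) α (gam_map_aut k α)

theorem qAut_mk (k : ℕ) (α : MulAut G) (x : G) :
    qAut k α (QuotientGroup.mk x) = QuotientGroup.mk (α x) := rfl

/-- the homomorphism `AutC G → AutC (G / γ_{k+1})` -/
def qHom (G : Type*) [Group G] (k : ℕ) : AutC G →* AutC (G ⧸ gam G k) where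
  toFun α := ⟨qAut k (α : MulAut G), by
    intro q
    obtain ⟨x, rfl⟩ := QuotientGroup.mk_surjective q
    obtain ⟨c, hc⟩ := isConj_iff.1 (α.2 x)
    rw [qAut_mk, ← hc]
    exact isConj_iff.2 ⟨QuotientGroup.mk c, rfl⟩⟩
  map_one' := by
    apply Subtype.ext
    ext q
    obtain ⟨x, rfl⟩ := QuotientGroup.mk_surjective q
    rfl
  map_mul' α β := by
    apply Subtype.ext
    ext q
    obtain ⟨x, rfl⟩ := QuotientGroup.mk_surjective q
    rfl

theorem lcs_map_le {H K : Type*} [Group H] [Group K] (f : H →* K) (n : ℕ) :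
    ((⊤ : Subgroup H).lowerCentralSeries n).map f ≤ (⊤ : Subgroup K).lowerCentralSeries n := by
  induction n with
  | zero => simp
  | succ n ih =>
    rw [Subgroup.lowerCentralSeries_succ, Subgroup.lowerCentralSeries_succ, Subgroup.map_commutator]
    exact Subgroup.commutator_mono ih le_top

theorem map_gam_quot (k j : ℕ) :
    (gam G j).map (QuotientGroup.mk' (gam G k)) = gam (G ⧸ gam G k) j := by
  change ((⊤ : Subgroup G).lowerCentralSeries j).map _ =
    (⊤ : Subgroup (G ⧸ gam G k)).lowerCentralSeries j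
  rw [Subgroup.map_lowerCentralSeries]
  congr 1
  exact Subgroup.map_top_of_surjective _ (QuotientGroup.mk'_surjective _)

/-- if all elements of the `n`-th term of the lower central series of `AutC G` act as inner
automorphisms on `G / γ_{k+2}`, then the `n`-th term of the lower central series of `OutC G`
consists of classes of `k`-deep automorphisms -/
theorem lcs_outC_le_of_quot {n k : ℕ}
    (h : (⊤ : Subgroup (AutC (G ⧸ gam G (k + 1)))).lowerCentralSeries n ≤
      InnC (G ⧸ gam G (k + 1))) :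
    (⊤ : Subgroup (OutC G)).lowerCentralSeries n ≤ (DD G k).map (QuotientGroup.mk' (InnC G)) := by
  have h1 : (⊤ : Subgroup (OutC G)) = (⊤ : Subgroup (AutC G)).map (QuotientGroup.mk' (InnC G)) :=
    (Subgroup.map_top_of_surjective _ (QuotientGroup.mk'_surjective _)).symm
  rw [h1, ← Subgroup.map_lowerCentralSeries]
  rintro _ ⟨α, hα, rfl⟩
  have h2 : qHom G (k + 1) α ∈ InnC (G ⧸ gam G (k + 1)) :=
    h (lcs_map_le (qHom G (k + 1)) n ⟨α, hα, rfl⟩)
  obtain ⟨q, hq⟩ := h2
  obtain ⟨g, rfl⟩ := QuotientGroup.mk_surjective q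
  have hg : ∀ x : G, (α : MulAut G) x * (g * x * g⁻¹)⁻¹ ∈ gam G (k + 1) := by
    intro x
    apply mem_of_mk_eq
    have h3 := congrArg (fun f : MulAut (G ⧸ gam G (k + 1)) => f (QuotientGroup.mk x)) hq
    exact h3.symm
  have hgm : MulAut.conj g ∈ AutC G := fun x =>
    isConj_iff.2 ⟨g, (MulAut.conj_apply g x).symm⟩
  set ι : AutC G := ⟨MulAut.conj g, hgm⟩ with hι
  have hιm : ι ∈ InnC G := ⟨g, rfl⟩
  refine ⟨α * ι⁻¹, ?_, ?_⟩
  · refine deep_of_trivial ?_
    intro x
    have h1 : ((α * ι⁻¹ : AutC G) : MulAut G) x = (α : MulAut G) (g⁻¹ * x * g) := by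
      change (α : MulAut G) ((MulAut.conj g)⁻¹ x) = _
      rw [← map_inv, MulAut.conj_apply, inv_inv]
    rw [h1]
    have h2 := hg (g⁻¹ * x * g)
    have h3 : g * (g⁻¹ * x * g) * g⁻¹ = x := by group
    rwa [h3] at h2
  · rw [map_mul, map_inv]
    have h1 : QuotientGroup.mk' (InnC G) ι = 1 := (QuotientGroup.eq_one_iff _).2 hιm
    rw [h1, inv_one, mul_one]

/-- the depth grows by one with every commutator -/
theorem lcs_outC_step {n k : ℕ}
    (h : (⊤ : Subgroup (OutC G)).lowerCentralSeries n ≤ (DD G k).map (QuotientGroup.mk' (InnC G)))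
    (i : ℕ) : (⊤ : Subgroup (OutC G)).lowerCentralSeries (n + i) ≤
      (DD G (k + i)).map (QuotientGroup.mk' (InnC G)) := by
  induction i with
  | zero => exact h
  | succ i ih =>
    have h0 : (⊤ : Subgroup (OutC G)) ≤ (DD G 0).map (QuotientGroup.mk' (InnC G)) := by
      intro y _
      obtain ⟨α, rfl⟩ := QuotientGroup.mk'_surjective (InnC G) y
      have h3 : α ∈ DD G 0 := deep_of_autC (α : MulAut G) α.2
      exact ⟨α, h3, rfl⟩
    rw [← Nat.add_assoc, Subgroup.lowerCentralSeries_succ]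
    refine (Subgroup.commutator_mono ih h0).trans ?_
    rw [← Subgroup.map_commutator]
    apply Subgroup.map_mono
    rw [Subgroup.commutator_le]
    intro α hα β hβ
    have hα' : Deep (k + i) (α : MulAut G) := hα
    have hβ' : Deep 0 (β : MulAut G) := hβ
    have h1 := Deep.comm' (a := k + i) (b := 0) hα' hβ'
    have h2 : k + i + 0 + 1 = k + (i + 1) := by ring
    rw [h2] at h1
    exact h1

theorem map_DD_eq_bot {c : ℕ} (hc : gam G (c + 1) = ⊥) :
    (DD G c).map (QuotientGroup.mk' (InnC G)) = ⊥ := by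
  rw [eq_bot_iff]
  rintro _ ⟨α, hα, rfl⟩
  have h1 : α = 1 := by
    apply Subtype.ext
    ext x
    have h2 := hα 0 x (by simp [gam])
    rw [show 0 + c + 1 = c + 1 by ring, hc, Subgroup.mem_bot, mul_inv_eq_one] at h2
    exact h2
  rw [h1, map_one]
  exact Subgroup.one_mem _

/-- a cyclic factor of the lower central series -/
theorem cyclic_factor [Finite G] {k : ℕ} {g : G}
    (hg : gam G (k + 1) ≤ zpowers g ⊔ gam G (k + 2)) :
    (⊤ : Subgroup (AutC (G ⧸ gam G (k + 2)))).lowerCentralSeries k ≤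
      InnC (G ⧸ gam G (k + 2)) := by
  refine cyclic_last _ (gam_quot_bot (k + 2)) ?_
  rw [← map_gam_quot]
  have h1 : (gam G (k + 1)).map (QuotientGroup.mk' (gam G (k + 2))) ≤
      zpowers (QuotientGroup.mk' (gam G (k + 2)) g) := by
    refine (Subgroup.map_mono hg).trans ?_
    rw [Subgroup.map_sup, MonoidHom.map_zpowers]
    refine sup_le le_rfl ?_
    rw [Subgroup.map_le_iff_le_comap]
    intro x hx
    have : QuotientGroup.mk' (gam G (k + 2)) x = 1 := (QuotientGroup.eq_one_iff _).2 hx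
    rw [Subgroup.mem_comap, this]
    exact Subgroup.one_mem _
  have h2 : IsCyclic (zpowers (QuotientGroup.mk' (gam G (k + 2)) g)) := inferInstance
  exact isCyclic_of_injective (Subgroup.inclusion h1) (Subgroup.inclusion_injective h1)

theorem main_cyclic [Finite G] {k c : ℕ} {g : G} (hg : gam G (k + 1) ≤ zpowers g ⊔ gam G (k + 2))
    (hc : gam G c = ⊥) (hkc : k + 2 ≤ c) :
    (⊤ : Subgroup (OutC G)).lowerCentralSeries (c - 2) = ⊥ := by
  have h1 := lcs_outC_step (lcs_outC_le_of_quot (cyclic_factor hg)) (c - 2 - k)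
  have h2 : k + (c - 2 - k) = c - 2 := by omega
  have h3 : k + 1 + (c - 2 - k) = c - 1 := by omega
  rw [h2, h3] at h1
  have h4 : c - 1 + 1 = c := by omega
  rw [map_DD_eq_bot (by rw [h4]; exact hc)] at h1
  exact le_bot_iff.1 h1

/-- the case of a cyclic second factor -/
theorem main_cyclic_two [Finite G] {n c : ℕ} {g : G} (hg : gam G 1 ≤ zpowers g ⊔ gam G 2)
    (hc : gam G c = ⊥) (hn : c ≤ 2 * (n + 1)) :
    (⊤ : Subgroup (OutC G)).lowerCentralSeries n = ⊥ := by
  refine outC_lcs_eq_bot (k := 1) (n := n) (c := c) ?_ hc hn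
  intro α
  have h1 := cyclic_factor (k := 0) hg
  rw [Subgroup.lowerCentralSeries_zero] at h1
  refine of_quot (k := 2) (fun β hβ => ?_) α.2
  obtain ⟨q, hq⟩ := h1 (Subgroup.mem_top (⟨β, hβ⟩ : AutC (G ⧸ gam G 2)))
  refine ⟨q, fun t => ?_⟩
  have h3 := congrArg (fun f : MulAut (G ⧸ gam G 2) => f t) hq
  exact h3.symm

end Pool.Agent.Helper973_Cyc
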